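import Pool.Agent.Q269.GT.Top

/-!
# The Tate conjecture for surfaces over all the finite extensions of the field of constants

Let `k` be a finite field with `q` elements, `q ≡ 1 mod 4`, and let `a 1, …, a n ∈ k[t]`, `n ≥ 3` odd, be
polynomials such that all the differences `a i - a j` (`i ≠ j`) have the same even degree `N ≥ 2` and the
product `Δ` of the differences `a i - a j`, `i < j`, is squarefree. The monic prime divisors of `Δ` are
called the bad primes; suppose that their degrees are odd, and let `T` be their number. For a monic
irreducible polynomial `P` which is not bad, a finite extension `E` of `k` and `c ≠ 0` in `E` let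

`C(P, c) : y ^ 2 = P(t) (x - c a 1) ⋯ (x - c a n)` over `K = E(t)`, with the Jacobian `J = J(P, c, E)`

(for `c` in `E` this is the twist of `C(P, 1)` by `c`: the quadratic twist by a constant), and let
`X(P, c, E)` be the smooth projective model of the surface `y ^ 2 = P(t) ∏ (x - c a i)` over `E`. Let
`Sha'(J)` be the group of the classes in `H ^ 1 (K, J)` which are trivial over the completions of `K` at all
the places different from infinity; it contains the Tate-Shafarevich group.

The degree `m` of `P` will be a prime number, and `P` is irreducible over `k` but splits into `m` factors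
over every extension `E` of `k` whose degree is divisible by `m`. There are infinitely many fields `E`. The
theorem says that the ranks are zero and the conjecture of Tate holds over all of them for the same `P`:

Theorem. Let `R ∈ k[t]` be such that the two symmetric forms `form a R` and `form (c a) R`, `c` not a square
in `k`, on the space of dimension `T` over the field with two elements, are nondegenerate (these are
explicit matrices of quadratic residue symbols, which depend only on `a` and on the symbols of `R` at the bad
primes). Let `m` be an odd prime number. Consider the monic irreducible polynomials `P` of degree `m` which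
are squares modulo the same bad primes as `R`; there are at least

`(q ^ m / 2 ^ T - 2 deg(Δ) q ^ (m / 2) - q) / m`

of them. For all of them, except for at most `6 (n - 1) q ^ m / 2 ^ ⌊ord_m(2) / 4⌋`, where `ord_m(2)` is the
order of `2` modulo `m`, the following holds for EVERY finite extension `E` of `k` whose degree is prime to
the degrees of the bad primes (for every finite extension of `k`, if the bad primes have degree one):

(1) For every `c ≠ 0` in `E`, which is not a square if the degree of `E` over `k` is even, the `2`-primary
part of `Sha'(J)` is zero and `J(K) = J(K)[2] + 2 J(K)`. So the group `J(K)` is finite (it is finitely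
generated) and `X(P, c, E)` satisfies the conjecture of Tate, and the conjecture of Birch and
Swinnerton-Dyer holds for `J` (Tate, Milne, Kato-Trihan).

(2) For every `c ≠ 0` in `E` there is an `e` such that all the elements of `2 ^ e J(K)` are infinitely
divisible by `2` in `J(K)`, so again `J(K)` is finite.

In particular, if all the bad primes have degree one, then the group of the points of `J(P, 1)` over
`k'(t)`, `k'` the algebraic closure of `k`, is a torsion group: the geometric rank is zero.

The number `ord_m(2)` is large for almost all `m`: for all `B` the number of the primes `m ≤ M` with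
`2 ^ ord_m(2) < m ^ B` is at most `(B (log_2 M + 1)) ^ 2`. For the other primes `m ≤ M` the proportion of the
exceptional `P` in the class is at most `O(m ^ (1 - B / 4))`.

An example is the family `y ^ 2 = P(t) x (x - t ^ 2 + 1) (x - 2 t ^ 2 - 2)` over the field with 13 elements with
`R = t`: the bad primes are `t ± 1`, `t ± 5`, `t ± 6`, and `P` runs through the irreducible polynomials of degree
`m` for which `P(±1)` are squares and `P(±5)`, `P(±6)` are not squares in the field with 13 elements.

The proof: for `m ∤ [E : k]` the descent over `E(t)` is the same as over `k(t)` or (if `[E : k]` is even)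
elementary. If `m` divides `[E : k]`, the polynomial `P` has the factors `P_1, …, P_m` over `E`, which are
permuted by the Galois group, and the matrix of the descent, of size about `(n - 1) m`, contains the circulant
matrix of the symbols `(P_i / P_j)`; it is nonsingular as soon as the circulant has no common eigenvalue
with a certain matrix of size `n - 1` over the field with two elements. The symbols `(P_i / P_j)` are the
quadratic characters of `θ - θ ^ (q ^ j)`, where `θ` is a root of `P`, and by the theorem of Weil they are
independent enough to show that this happens for almost all `P`. Over the fields of even degree the points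
are descended along the quadratic extensions of the constants.
-/

set_option autoImplicit false
set_option linter.all false

namespace Pool.Agent.Results.MP_950c68_ag.AllConstantExtensions

open Polynomial Pool.Agent.Y713.Jac
open scoped Classical

section definitions

variable {k : Type} [Field k] {n : ℕ}

/-- The product `Δ` of the differences `a i - a j`, `i < j`. -/
noncomputable def differences (a : Fin n → k[X]) : k[X] :=
  ∏ x ∈ (Finset.univ : Finset (Fin n × Fin n)).filter (fun x => x.1 < x.2), (a x.1 - a x.2)

/-- `Q` is a bad prime. -/
def IsBad (a : Fin n → k[X]) (Q : k[X]) : Prop :=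
  Q.Monic ∧ Irreducible Q ∧ ∃ i j, i ≠ j ∧ Q ∣ a i - a j

/-- The set of the bad primes. -/
abbrev Bad (a : Fin n → k[X]) : Type := {Q : k[X] // IsBad a Q}

/-- `f` is a square modulo `Q`. -/
def SquareMod (Q f : k[X]) : Prop := ∃ g : k[X], Q ∣ g ^ 2 - f

/-- The symbol of `f` modulo `Q`: `0` if `f` is a square modulo `Q`, and `1` otherwise. -/
noncomputable def symbol (f Q : k[X]) : ZMod 2 := if SquareMod Q f then 0 else 1

/-- `l` is one of the two indices `i`, `j` with `Q ∣ a i - a j`, `i ≠ j`. -/
def AtNode (a : Fin n → k[X]) (Q : k[X]) (l : Fin n) : Prop := ∃ i, i ≠ l ∧ Q ∣ a i - a l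

/-- The vector `e i + e j`, where `Q ∣ a i - a j`, `i ≠ j`. -/
noncomputable def node (a : Fin n → k[X]) (Q : k[X]) (l : Fin n) : ZMod 2 :=
  if AtNode a Q l then 1 else 0

/-- The scalar product. -/
def dot (x y : Fin n → ZMod 2) : ZMod 2 := ∑ i, x i * y i

/-- The vector `w(z)`: the sum of the vectors `z Q • node Q` over the bad primes `Q`. -/
noncomputable def weight (a : Fin n → k[X]) (z : Bad a → ZMod 2) (i : Fin n) : ZMod 2 :=
  ∑ᶠ Q : Bad a, z Q * node a Q.1 i

/-- The sum over the indices `l` different from the two indices `i`, `j` of `Q` of the symbols of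
`a i - a l` (or of `a j - a l`, which is congruent to it) modulo `Q`. -/
noncomputable def other (a : Fin n → k[X]) (Q : k[X]) : ZMod 2 :=
  ∑ l, if AtNode a Q l then 0
    else if ∃ i, AtNode a Q i ∧ SquareMod Q (a i - a l) then 0 else 1

/-- The endomorphism `w ↦ (∑ j, c i j (w i + w j))_i`, where `c i j` is `0` if the leading coefficient of
`a i - a j` is a square and `1` otherwise. -/
noncomputable def leading (a : Fin n → k[X]) (w : Fin n → ZMod 2) (i : Fin n) : ZMod 2 :=
  ∑ j, (w i + w j) * (if IsSquare (a i - a j).leadingCoeff then 0 else 1)

/-- The form of the class of `R`. -/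
noncomputable def form (a : Fin n → k[X]) (R : k[X]) (z z' : Bad a → ZMod 2) : ZMod 2 :=
  ∑ᶠ Q : Bad a, symbol R Q.1 * ((z Q + dot (weight a z) (node a Q.1)) *
    (z' Q + dot (weight a z') (node a Q.1))) +
  ∑ᶠ Q : Bad a, other a Q.1 * (z Q * z' Q) +
  ∑ᶠ Q : Bad a, ∑ᶠ Q' : Bad a, symbol Q.1 Q'.1 *
    (z Q' * z' Q * dot (node a Q'.1) (node a Q.1)) +
  dot (leading a (weight a z)) (weight a z')

/-- The form is nondegenerate. -/
def Nondegenerate (a : Fin n → k[X]) (R : k[X]) : Prop :=
  ∀ z : Bad a → ZMod 2, (∀ z', form a R z z' = 0) → z = 0

/-- The condition on the class of `R`: the forms of `a` and of `c a`, `c` not a square, are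
nondegenerate. -/
def IsGood (a : Fin n → k[X]) (R : k[X]) : Prop :=
  Nondegenerate a R ∧ ∀ c : k, ¬ IsSquare c → Nondegenerate (fun i => C c * a i) R

/-- The monic irreducible polynomials of degree `m`, not bad, with the same symbols as `R` at the bad
primes. -/
def PrimesOf (a : Fin n → k[X]) (R : k[X]) (m : ℕ) : Set k[X] :=
  {P | P.Monic ∧ Irreducible P ∧ P.natDegree = m ∧ ¬ IsBad a P ∧
    ∀ Q, IsBad a Q → (SquareMod Q P ↔ SquareMod Q R)}

/-- The polynomial `P(t) ∏ (x - c a i)` in `x` over `K = E(t)`. -/
noncomputable def curve {E : Type} [Field E] [Algebra k E] (K : Type) [Field K] [Algebra E[X] K]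
    (a : Fin n → k[X]) (P : k[X]) (c : E) : K[X] :=
  C (algebraMap E[X] K (P.map (algebraMap k E))) *
    ∏ i, (X - C (algebraMap E[X] K (C c * (a i).map (algebraMap k E))))

/-- Every element of the group is the product of an element killed by 2 and of a square. -/
def TorsionTimesSquares (G : Type) [CommGroup G] : Prop :=
  ∀ x : G, ∃ t y : G, t ^ 2 = 1 ∧ x = t * y ^ 2

/-- For a number `e`, the powers `x ^ (2 ^ e)` of the elements are infinitely divisible by 2. -/
def PowersDivisible (G : Type) [CommGroup G] : Prop :=
  ∃ e : ℕ, ∀ (N : ℕ) (x : G), ∃ y : G, x ^ 2 ^ e = y ^ 2 ^ N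

/-- The conclusion for the polynomial `P`: for all the finite extensions `E` of `k` of degree prime to the
degrees of the bad primes, all `c ≠ 0` in `E` and `K = E(t)`. -/
def OverAllExtensions (a : Fin n → k[X]) (P : k[X]) : Prop :=
  ∀ (E : Type) [Field E] [Finite E] [Algebra k E],
    (∀ Q, IsBad a Q → Nat.Coprime Q.natDegree (Module.finrank k E)) → ∀ c : E, c ≠ 0 →
    ∀ (K : Type) [Field K] [Algebra E[X] K] [IsFractionRing E[X] K],
      ((Even (Module.finrank k E) → ¬ IsSquare c) →
        ShaPrimaryTrivial 2 (curve K a P c) E[X] ∧
        TorsionTimesSquares (J 2 (curve K a P c) K)) ∧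
      PowersDivisible (J 2 (curve K a P c) K)

end definitions

/-- The example over the field with 13 elements. -/
noncomputable def example13 : Fin 3 → (ZMod 13)[X] := ![0, X ^ 2 - 1, 2 * X ^ 2 + 2]

theorem result :
    (∀ (k : Type) [Field k] [Finite k], (2 : k) ≠ 0 → IsSquare (-1 : k) →
      ∀ (n N : ℕ), Odd n → 3 ≤ n → Even N → 1 ≤ N →
      ∀ a : Fin n → k[X], (∀ i j, i ≠ j → (a i - a j).natDegree = N) →
      Squarefree (differences a) → (∀ Q, IsBad a Q → Odd Q.natDegree) →
      ∀ R : k[X], IsGood a R → ∀ m : ℕ, m.Prime → Odd m →
        (Nat.card k : ℝ) ^ m / 2 ^ Nat.card (Bad a) -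
          2 * ((differences a).natDegree : ℝ) * Real.sqrt ((Nat.card k : ℝ) ^ m) - Nat.card k ≤
          (m : ℝ) * ((PrimesOf a R m).ncard : ℝ) ∧
        ({P | P ∈ PrimesOf a R m ∧ ¬ OverAllExtensions a P}.ncard : ℝ) ≤
          6 * ((n : ℝ) - 1) * (Nat.card k : ℝ) ^ m / 2 ^ (orderOf (2 : ZMod m) / 4)) ∧
    (∀ M B : ℕ, {m : ℕ | m.Prime ∧ Odd m ∧ m ≤ M ∧ 2 ^ orderOf (2 : ZMod m) < m ^ B}.ncard ≤
      (B * (Nat.log 2 M + 1)) ^ 2) ∧
    (∀ i j, i ≠ j → (example13 i - example13 j).natDegree = 2) ∧
    Squarefree (differences example13) ∧ (∀ Q, IsBad example13 Q → Q.natDegree = 1) ∧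
    IsGood example13 X := by
  refine ⟨?_, Pool.Agent.Q269.GT.few, ?_⟩
  · intro k _ _ h2 hm1 n N hn hn3 hN hN1 a ha hs hodd R hR m hm hmo
    have h := Pool.Agent.Q269.GT.top h2 hm1 hn hn3 hN hN1 ha hs hodd hR hm hmo
    exact h
  · haveI : Fact (Nat.Prime 13) := ⟨by norm_num⟩
    exact Pool.Agent.Q269.GT.ex13

end Pool.Agent.Results.MP_950c68_ag.AllConstantExtensions
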