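import Pool.Agent.H180.MO.End
import Pool.Agent.Q237.NS.Ap
import Pool.Agent.Q237.NS.Slope
import Pool.Agent.Q164.NS.Par

/-!
# Tate's conjecture for all products of diagonal hypersurfaces of degree `p ^ a q ^ b` over finite fields
# whose characteristic has even order modulo `p` and odd order modulo `q`

Let `p` and `q` be different odd primes such that `-1` is a power of `p` modulo `q`. Let `l` be a prime
such that `-1` is a power of `l` modulo `p` (that is, `l` has even order modulo `p`), and `l` has odd
order modulo `q`. These primes have the natural density `(1 - 2 ^ (-s)) 2 ^ (-t)`, where `2 ^ s` and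
`2 ^ t` are the exact powers of `2` which divide `p - 1` and `q - 1`. Let `m = p ^ a q ^ b`, and let `n`
be the order of `l` modulo `m`. Let `F` be a field with `l ^ (n k)` elements, `k` odd.

The cohomology of a diagonal hypersurface `∑ c_i x_i ^ m = 0` over `F`, and of a product of such
hypersurfaces, is a sum of lines `V(s)` stable under the Frobenius endomorphism (Weil); the line of
the primitive cohomology attached to nonzero residues `a_i` with sum zero has the character
`s = {(a_i, c_i)}`, the character of a tensor product of lines is the union, and the Frobenius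
endomorphism acts on `V(s)` as `± Q ^ (-t) ∏ g(χ ^ a_i) / χ ^ a_i (c_i)`, where `χ` is a fixed character
of order `m` of `F`, `Q` is the number of elements of `F` and `t` is the number of factors; the sign is
`+` in even degrees. So `V(s)`, in an even degree, consists of Tate classes over `F` if and only if
`∏ g(χ ^ a_i) = Q ^ (|s| / 2) ∏ χ ^ a_i (c_i)` (`FrobeniusTate`). Let `A` be the family of the multisets
of residues, of all degrees prime to `l`, for which the line over an algebraic closure of `F` is
spanned by an algebraic class (a line of Tate classes over `F` with this property is spanned by the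
class of a cycle over `F`). The family `A` is `Admissible` (Tate, Shioda, Katsura, Aoki).

The theorem: every line of Tate classes over `F` is in `A`. So the conjecture of Tate holds for all
products of diagonal hypersurfaces of degree `m` over `F`, in all codimensions, and then, by taking
traces, over all fields with `l ^ r` elements where the exact power of `2` which divides `r` is not
greater than the one which divides `n`, for example over the prime field. Moreover, over an algebraic
closure, all Tate characters of degree `m` with an even number of entries of `q`-power order are in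
`A`, and if one Tate character with an odd number of such entries is in `A` then all are.

Reason: the parity theorem for Fermat varieties (a starting file of this project) leaves one exotic
class modulo the generators, the one of the characters with an odd number of entries of `q`-power
order (this uses that `-1` is a power of `p` modulo `q`), and the Frobenius endomorphism of `F` acts on
this class by the sign `-1`: the Gauss sums of `p`-power order over `F` are `+ Q ^ (1/2)` times roots of
unity, and modulo a prime over `q` all entries but those of `q`-power order contribute roots of unity of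
odd order, while each entry of `q`-power order contributes `-1`.
-/

namespace Pool.Agent.Results.MP_950c68_ag.DiagonalMixedOrders

open Filter Topology Pool.Agent.H916T

/-- The prime `l` has even order modulo the odd prime `p` (`-1` is a power of `l`), and odd order modulo
`q`. -/
def MixedOrders (p q l : ℕ) : Prop :=
  l.Prime ∧ (∃ j : ℕ, (l : ZMod p) ^ j = -1) ∧ Odd (orderOf (l : ZMod q))

/-- The closure properties of the family `A` of the characters of algebraic classes on the Fermat
varieties of all degrees `m` prime to `l` over an algebraic closure of the field with `l` elements. -/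
structure Admissible (l : ℕ) (A : (m : ℕ) → Multiset (ZMod m) → Prop) : Prop where
  /-- pairs -/
  pair : ∀ m : ℕ, 0 < m → l.Coprime m → ∀ a : ZMod m, a ≠ 0 → A m {a, -a}
  /-- the Tate characters of Fermat surfaces -/
  surface : ∀ m : ℕ, 0 < m → l.Coprime m → ∀ s, SurfaceTate l m s → A m s
  /-- standard characters -/
  standard : ∀ m : ℕ, 0 < m → l.Coprime m → ∀ r : ℕ, r.Prime → r ∣ m →
    ∀ s, Standard r m s → A m s
  /-- union -/
  join : ∀ m : ℕ, 0 < m → l.Coprime m → ∀ s t, A m s → A m t → A m (s + t)
  /-- removal of a pair -/
  cancel : ∀ m : ℕ, 0 < m → l.Coprime m → ∀ a s, A m (a ::ₘ -a ::ₘ s) → A m s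
  /-- descent along the map from the Fermat variety of degree `N * m` to that of degree `m` -/
  descend : ∀ m N : ℕ, 0 < N * m → l.Coprime (N * m) → ∀ s : Multiset (ZMod m),
    A (N * m) (s.map fun a => ((N * a.val : ℕ) : ZMod (N * m))) → A m s

/-- The line with the character `s = {(a_i, c_i)}`, `a_i` nonzero with sum zero, `c_i` nonzero, in an even
degree, consists of Tate classes over `F`: `∏ g(χ ^ a_i) = Q ^ (|s| / 2) * ∏ χ ^ a_i (c_i)`, `Q` the number
of elements of `F`. -/
structure FrobeniusTate (m : ℕ) {F : Type} [Field F] [Fintype F] (χ : MulChar F ℂ)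
    (ψ : AddChar F ℂ) (s : Multiset (ZMod m × F)) : Prop where
  ne_zero : ∀ z ∈ s, z.1 ≠ 0 ∧ z.2 ≠ 0
  even : Even (Multiset.card s)
  sum : (s.map Prod.fst).sum = 0
  frobenius : (s.map fun z => gaussSum (χ ^ z.1.val) ψ).prod =
    (Fintype.card F : ℂ) ^ (Multiset.card s / 2) * (s.map fun z => (χ ^ z.1.val) z.2).prod

/-- The number of the entries of `q`-power order of a multiset of residues modulo `m`, where `v` is the
exact power of `q` which divides `m`. -/
def killed (v : ℕ) {m : ℕ} (s : Multiset (ZMod m)) : ℕ :=
  s.countP fun x => (v : ZMod m) * x = 0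

/-- **The conjecture of Tate for products of diagonal hypersurfaces of degree `p ^ a q ^ b`.** -/
theorem result (p q : ℕ) (hp : p.Prime) (hq : q.Prime) (hp2 : p ≠ 2) (hq2 : q ≠ 2) (hpq : p ≠ q)
    (h : ∃ i : ℕ, (p : ZMod q) ^ i = -1) :
    Tendsto (fun N : ℕ => (Nat.card {l : ℕ // l ≤ N ∧ MixedOrders p q l} : ℝ) /
      (Nat.primeCounting N : ℝ)) atTop
      (𝓝 ((1 - 1 / 2 ^ padicValNat 2 (p - 1)) * (1 / 2 ^ padicValNat 2 (q - 1)))) ∧
    ∀ l a b m : ℕ, MixedOrders p q l → 0 < a → 0 < b → m = p ^ a * q ^ b →
      ∀ A : (m : ℕ) → Multiset (ZMod m) → Prop, Admissible l A →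
      (∀ s : Multiset (ZMod m), IsTate l m s → Even (killed (q ^ b) s) → A m s) ∧
      (∀ t : Multiset (ZMod m), IsTate l m t → Odd (killed (q ^ b) t) → A m t →
        ∀ s : Multiset (ZMod m), IsTate l m s → A m s) ∧
      ∀ k : ℕ, Odd k → ∀ (F : Type) [Field F] [Fintype F],
        Fintype.card F = l ^ (orderOf (l : ZMod m) * k) →
        ∀ (χ : MulChar F ℂ) (ψ : AddChar F ℂ), orderOf χ = m → ψ ≠ 1 →
        ∀ s : Multiset (ZMod m × F), FrobeniusTate m χ ψ s → A m (s.map Prod.fst) := by
  refine ⟨H180.MO.dens Q237.NS.ap hp hq hp2 hpq, ?_⟩
  intro l a b m hl ha hb hm A hA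
  have hlm := H180.MO.coprime_m (a := a) (b := b) hp hq hl.1 hp2 hm hl.2.1 hl.2.2
  have hH := H180.MO.hyp_of (a := a) (b := b) hp hq hp2 hq2 ha hb hl.2.1 hl.2.2 h
  have hAd : H180.MO.Adm l A :=
    ⟨hA.pair, hA.surface, hA.standard, hA.join, hA.cancel, hA.descend⟩
  refine ⟨?_, ?_, ?_⟩
  · intro s hs hev
    exact H180.MO.even_mem hp hq hp2 hq2 hpq ha hb hm hl.1 hlm hH hAd hs hev
  · intro t ht hodd htA s hs
    exact H180.MO.odd_mem hp hq hp2 hq2 hpq ha hb hm hl.1 hlm hH hAd ht
      (Nat.not_even_iff_odd.mpr hodd) htA hs
  · intro k hk F _ _ hF χ ψ hχ hψ s hs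
    obtain ⟨h1, h2⟩ := H180.MO.ff Q237.NS.slope Q164.NS.par hp hq hp2 hq2 hpq ha hb hm hl.1 hlm hH
      hk hF hχ hψ hs.ne_zero hs.even hs.sum hs.frobenius
    exact H180.MO.even_mem hp hq hp2 hq2 hpq ha hb hm hl.1 hlm hH hAd h1 h2

end Pool.Agent.Results.MP_950c68_ag.DiagonalMixedOrders
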