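import Pool.Agent.Q59.EC.Fam2
import Pool.Agent.Q59.OT.Main

/-!
# The Tate conjecture for Fermat varieties: degrees up to fifty-four, and characteristics of odd order

Let `X` be the Fermat variety `x_0 ^ m + ... + x_(n+1) ^ m = 0` over an algebraic closure of the
field with `p` elements, `p` not dividing `m`, and let `f` be the order of `p` modulo `m`. Its
primitive cohomology is the sum of the lines `V(s)` of the multisets `s` of `n + 2` nonzero residues
modulo `m` with sum zero; a power of the Frobenius acts on `V(s)` as the expected power of `p` if and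
only if `s` is a Tate character (Weil, Stickelberger). In characteristic zero `V(s)` consists of
Hodge classes if and only if `s` is a Hodge character (Shioda, Katsura).

The characters with algebraic lines form an admissible family (Shioda, Katsura, Aoki; Tate's theorem
for Fermat surfaces; specialization of algebraic cycles).

The theorem.

* If `m` is a `GoodDegree`, in particular if `m ≤ 54`, then every Tate character belongs to every
  admissible family: the Tate conjecture holds for the Fermat varieties of degree `m` and all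
  dimensions, in every characteristic. For the prime divisors `2, 3, 5`; `2, 3, 7`; `2, q` with `q`
  congruent to seven modulo eight, and `2, 3, 11`; `2, 3, 13` if four does not divide `m` this is
  the starting theorem `MP_021685_ag.FermatEveryCharacteristic`; new are the other families, among
  them the degrees 17, 19, 29, 34, 35, 37, 38, 41, 43, 44, 51, 52, 53.
* Let `f` be odd, and let `s` be a Tate character. The union `U` of the Frobenius conjugates
  `s, p s, ..., p ^ (f - 1) s` is a Hodge character, and for every admissible family `A` the character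
  `s` belongs to `A` if and only if `U` does. So if `f` is odd, the Hodge conjecture for the complex
  Fermat varieties of degree `m` implies the Tate conjecture for those of degree `m` in characteristic
  `p`. Moreover the line of `s` is algebraic if `m = m1 * m2`, where `m1` is one of the degrees
  `GoodDegree2` for which the Hodge conjecture is known, and for every prime `q` dividing `m2` we have
  `q ≥ 5` and one of

  - `2 * f * weight q s < q - 1`;
  - `4` does not divide `m`, `f * weight q s < q - 1`, and `3` does not divide `m` or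
    `q` is `11`, `13`, `17` or `19`,

  `weight q s` being the number of the entries of `s` of order divisible by `q`, those of order `2`
  modulo `4` counted twice.
-/

namespace Pool.Agent.Results.MP_950c68_ag.FermatManyDegrees

open Pool.Agent.H916T Pool.Agent.Y2.Cv

/-- Membership in the family of Hodge characters generated by the pairs, the standard characters, the
characters with four entries and the curve products, in the degree `m` if `m` is even and in the degree
`2 * m` if `m` is odd; their lines are algebraic in characteristic zero. -/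
def AlgebraicLine (m : ℕ) (s : Multiset (ZMod m)) : Prop :=
  (Even m → Pool.Agent.H916R2.Generated m (SurfaceOrCurveProduct m) s) ∧
    (Odd m → Pool.Agent.H916R2.Generated (2 * m) (SurfaceOrCurveProduct (2 * m))
      (s.map fun a => ((2 * a.val : ℕ) : ZMod (2 * m))))

/-- The closure properties of the families of the characters of algebraic classes. -/
structure Admissible (p : ℕ) (A : ∀ M : ℕ, Multiset (ZMod M) → Prop) : Prop where
  /-- members are Tate characters -/
  tate : ∀ M, 0 < M → p.Coprime M → ∀ s, A M s → IsTate p M s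
  /-- duality -/
  neg : ∀ M, 0 < M → p.Coprime M → ∀ s, A M s → A M (s.map fun a => -a)
  /-- pairs -/
  pair : ∀ M, 0 < M → p.Coprime M → ∀ a : ZMod M, a ≠ 0 → A M {a, -a}
  /-- surfaces -/
  surface : ∀ M, 0 < M → p.Coprime M → ∀ s, SurfaceTate p M s → A M s
  /-- standard characters -/
  standard : ∀ M, 0 < M → p.Coprime M → ∀ q : ℕ, q.Prime → q ∣ M → ∀ s, Standard q M s → A M s
  /-- Hodge characters with algebraic lines in characteristic zero -/
  hodge : ∀ M, 0 < M → p.Coprime M → ∀ s, Pool.Agent.H916R2.IsHodge M s → s ≠ 0 →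
    AlgebraicLine M s → A M s
  /-- closed under union -/
  join : ∀ M, 0 < M → p.Coprime M → ∀ s t, A M s → A M t → A M (s + t)
  /-- closed under removal of a pair -/
  cancel : ∀ M, 0 < M → p.Coprime M → ∀ a s, A M (a ::ₘ -a ::ₘ s) → A M s
  /-- descent of the degree -/
  descend : ∀ M N, 0 < M → 0 < N → p.Coprime M → p.Coprime N → ∀ s : Multiset (ZMod M),
    A (N * M) (s.map fun a => ((N * a.val : ℕ) : ZMod (N * M))) → A M s

/-- All prime divisors of `m` are `2`, `a` or `b`. -/
def PrimesIn (m a b : ℕ) : Prop := ∀ r : ℕ, r.Prime → r ∣ m → r = 2 ∨ r = a ∨ r = b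

/-- The degrees: the prime divisors of `m` are among `2, 3, 5`, or `2, 3, 7`, or `2, 3, 11`, or
`2, 3, 13`, or `2, q` for a prime `q` congruent to `7` modulo `8`; or `4` does not divide `m` and
they are among `2, 5, 7`, or `2, 3, 17`, or `2, 3, 19`, or `2, q` for a prime `q`. -/
def GoodDegree (m : ℕ) : Prop :=
  PrimesIn m 3 5 ∨ PrimesIn m 3 7 ∨ PrimesIn m 3 11 ∨ PrimesIn m 3 13 ∨
  (∃ q : ℕ, q.Prime ∧ q % 8 = 7 ∧ PrimesIn m q q) ∨
  (¬ 4 ∣ m ∧ (PrimesIn m 5 7 ∨ PrimesIn m 3 17 ∨ PrimesIn m 3 19 ∨
    ∃ q : ℕ, q.Prime ∧ PrimesIn m q q))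

/-- The union of the Frobenius conjugates `p ^ j * s`, `j < f`, where `f` is the order of `p`. -/
noncomputable def conjugates (p : ℕ) {m : ℕ} (s : Multiset (ZMod m)) : Multiset (ZMod m) :=
  ∑ j ∈ Finset.range (orderOf (p : ZMod m)), s.map fun a => (p : ZMod m) ^ j * a

/-- The number of the entries of `s` of order divisible by `q`; entries of order `2` modulo `4` are
counted twice. -/
noncomputable def weight (q : ℕ) {m : ℕ} (s : Multiset (ZMod m)) : ℕ :=
  (s.map fun a => if q ∣ addOrderOf a then (if addOrderOf a % 4 = 2 then 2 else 1) else 0).sum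

/-- The number `w` is small for the prime `q`. -/
def Small (m q w : ℕ) : Prop :=
  5 ≤ q ∧ (2 * w < q - 1 ∨
    (¬ 4 ∣ m ∧ w < q - 1 ∧ (¬ 3 ∣ m ∨ q = 11 ∨ q = 13 ∨ q = 17 ∨ q = 19)))

lemma weight_eq (q : ℕ) {m : ℕ} (s : Multiset (ZMod m)) :
    ((weight q s : ℕ) : ℤ) = Pool.Agent.Q59.PL.wq q s := by
  induction s using Multiset.induction_on with
  | empty => simp [weight, Pool.Agent.Q59.PL.wq]
  | cons a s ih =>
    unfold weight Pool.Agent.Q59.PL.wq at ih ⊢
    rw [Multiset.map_cons, Multiset.sum_cons, Multiset.map_cons, Multiset.sum_cons, ← ih]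
    push_cast
    rfl

lemma Small.cond {m q : ℕ} [NeZero m] {p : ℕ} (hpm : p.Coprime m) {s : Multiset (ZMod m)}
    (h : Small m q (orderOf (p : ZMod m) * weight q s)) :
    Pool.Agent.Q59.PL.Cond m q (Pool.Agent.Q59.PL.wq q (Pool.Agent.Q59.OT.fr p s)) := by
  obtain ⟨h5, h⟩ := h
  refine ⟨h5, ?_⟩
  rw [Pool.Agent.Q59.OT.wq_fr hpm, ← weight_eq]
  have e : ((orderOf (p : ZMod m) : ℕ) : ℤ) * ((weight q s : ℕ) : ℤ) =
      ((orderOf (p : ZMod m) * weight q s : ℕ) : ℤ) := by push_cast; ring
  rw [e]
  rcases h with h | ⟨h4, h, h3⟩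
  · left
    have : ((2 * (orderOf (p : ZMod m) * weight q s) + 1 : ℕ) : ℤ) < q := by exact_mod_cast (by omega)
    push_cast at this ⊢
    linarith
  · refine Or.inr ⟨h4, ?_, h3⟩
    have : ((orderOf (p : ZMod m) * weight q s + 1 : ℕ) : ℤ) < q := by exact_mod_cast (by omega)
    push_cast at this ⊢
    linarith

lemma good_iff {m : ℕ} (h : GoodDegree m) : Pool.Agent.Q59.EC.GoodDegreeP m := by
  rcases h with h | h | h | h | ⟨q, hq, hq7, h⟩ | ⟨h4, h | h | h | ⟨q, hq, h⟩⟩
  · exact Or.inl h
  · exact Or.inr (Or.inl h)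
  · exact Or.inr (Or.inr (Or.inl h))
  · exact Or.inr (Or.inr (Or.inr (Or.inl h)))
  · exact Or.inr (Or.inr (Or.inr (Or.inr (Or.inl ⟨q, hq, hq7,
      fun r hr hrm => (h r hr hrm).imp id (fun h' => h'.elim id id)⟩))))
  · exact Or.inr (Or.inr (Or.inr (Or.inr (Or.inr ⟨h4, Or.inl h⟩))))
  · exact Or.inr (Or.inr (Or.inr (Or.inr (Or.inr ⟨h4, Or.inr (Or.inl h)⟩))))
  · exact Or.inr (Or.inr (Or.inr (Or.inr (Or.inr ⟨h4, Or.inr (Or.inr (Or.inl h))⟩))))
  · exact Or.inr (Or.inr (Or.inr (Or.inr (Or.inr ⟨h4, Or.inr (Or.inr (Or.inr ⟨q, hq,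
      fun r hr hrm => (h r hr hrm).imp id (fun h' => h'.elim id id)⟩))⟩))))

lemma good_of {m : ℕ} (h : Pool.Agent.Q59.EC.GoodDegreeP m) : GoodDegree m := by
  rcases h with h | h | h | h | ⟨q, hq, hq7, h⟩ | ⟨h4, h | h | h | ⟨q, hq, h⟩⟩
  · exact Or.inl h
  · exact Or.inr (Or.inl h)
  · exact Or.inr (Or.inr (Or.inl h))
  · exact Or.inr (Or.inr (Or.inr (Or.inl h)))
  · exact Or.inr (Or.inr (Or.inr (Or.inr (Or.inl ⟨q, hq, hq7,
      fun r hr hrm => (h r hr hrm).imp id Or.inl⟩))))
  · exact Or.inr (Or.inr (Or.inr (Or.inr (Or.inr ⟨h4, Or.inl h⟩))))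
  · exact Or.inr (Or.inr (Or.inr (Or.inr (Or.inr ⟨h4, Or.inr (Or.inl h)⟩))))
  · exact Or.inr (Or.inr (Or.inr (Or.inr (Or.inr ⟨h4, Or.inr (Or.inr (Or.inl h))⟩))))
  · exact Or.inr (Or.inr (Or.inr (Or.inr (Or.inr ⟨h4, Or.inr (Or.inr (Or.inr ⟨q, hq,
      fun r hr hrm => (h r hr hrm).imp id Or.inl⟩))⟩))))

/-- **The Tate conjecture for Fermat varieties.** -/
theorem result :
    (∀ m : ℕ, 0 < m → m ≤ 54 → GoodDegree m) ∧
    ∀ (p : ℕ), p.Prime → ∀ (A : ∀ M : ℕ, Multiset (ZMod M) → Prop), Admissible p A →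
      ∀ m : ℕ, 0 < m → p.Coprime m → ∀ s : Multiset (ZMod m), IsTate p m s →
        (GoodDegree m → A m s) ∧
        (Odd (orderOf (p : ZMod m)) → 2 ≤ m →
          Pool.Agent.H916R2.IsHodge m (conjugates p s) ∧ (A m s ↔ A m (conjugates p s)) ∧
          ∀ m1 m2 : ℕ, m1 * m2 = m → GoodDegree2 m1 →
            (∀ q : ℕ, q.Prime → q ∣ m2 → Small m q (orderOf (p : ZMod m) * weight q s)) →
            A m s) := by
  refine ⟨fun m hm h54 => good_of (Pool.Agent.Q59.EC.goodDegreeP_le hm h54), ?_⟩
  intro p hp A hA m hm hpm s hs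
  have : NeZero m := ⟨hm.ne'⟩
  have hC : Pool.Agent.Q59.EC.AdmC p A :=
    ⟨hA.pair, hA.surface, hA.standard, hA.hodge, hA.join, hA.cancel, hA.descend⟩
  refine ⟨fun h => hC.all hp hm hpm (good_iff h) hs, fun hf hm2 => ?_⟩
  have hT : Pool.Agent.Q59.RL.AdmT p A :=
    ⟨hA.tate, hA.neg, hA.pair, hA.surface, hA.standard, hA.join, hA.cancel, hA.descend⟩
  have hH : Pool.Agent.H916R2.IsHodge m (conjugates p s) := Pool.Agent.Q59.OT.fr_hodge hpm hs
  have hiff : A m s ↔ A m (conjugates p s) := Pool.Agent.Q59.OT.iff_fr hT hp hpm hm2 hf hs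
  refine ⟨hH, hiff, fun m1 m2 h12 hgood hbig => ?_⟩
  by_cases hne : conjugates p s = 0
  · rw [hiff, hne]; exact hT.zero hpm hm2
  · rw [hiff]
    refine hA.hodge m hm hpm _ hH hne ⟨fun he => ?_, fun ho => ?_⟩
    · refine Pool.Agent.Q59.PL.main_even h12 ?_ hgood hH hne fun q hq hqm =>
        (hbig q hq hqm).cond hpm
      by_contra h
      have h1 : 2 ∣ m1 * m2 := by rw [h12]; exact he.two_dvd
      have h2 : 2 ∣ m2 := (Nat.prime_two.dvd_mul.mp h1).resolve_left h
      exact absurd (hbig 2 Nat.prime_two h2).1 (by norm_num)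
    · exact Pool.Agent.Q59.PL.main_odd (Nat.odd_iff.mp ho) h12 hgood hH hne
        fun q hq hqm => (hbig q hq hqm).cond hpm

end Pool.Agent.Results.MP_950c68_ag.FermatManyDegrees
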