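import Pool.Agent.Q56.FD.Main

/-!
# One explicit power of a variety over a finite field decides the Tate conjecture for all its powers

Let `X` be a smooth projective variety of dimension at most `d` over a finite field, or over an
algebraic closure of it, with total Betti number at most `b`, and let
`N = powBound b d = (4 (d + 1) b!) ^ (2 ^ b)`.

* If the strong Tate conjecture (the generalised eigenspace of the Frobenius endomorphism over the
  field with `q` elements for the eigenvalue `q ^ j` in degree `2 j` is spanned by classes of
  cycles, for all large `q` and all `j`) holds for `X ^ N`, then it holds for all powers of `X`.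
  Semisimplicity of the Frobenius endomorphism is not assumed.
* If the Frobenius endomorphism acts semisimply on the cohomology of `X` and the Tate conjecture
  holds for `X ^ N` in all degrees, then it holds for all powers of `X` in all degrees.

The number `N` depends only on the dimension and the Betti number of `X`, not on the
characteristic, the field or the Frobenius eigenvalues.

Here `W` is a Weil cohomology theory with coefficients in an algebraically closed field (for example
`l`-adic cohomology with coefficients in an algebraic closure of `ℚ_l`) on a class of smooth
projective varieties, `Φ` is the system of the Frobenius endomorphisms, and the hypothesis `hP` says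
that the characteristic polynomials of the Frobenius endomorphism of `X` have integral coefficients
(Deligne), satisfy the Riemann hypothesis (Deligne), and that the slopes times their multiplicities
are integers (Katz-Messing, Dieudonne-Manin), all of which are theorems for smooth projective
varieties over finite fields. `pw X n` is the product of `n + 1` copies of `X`.
-/

open CategoryTheory AlgebraicGeometry

universe u v

namespace Pool.Agent.Results.MP_950c68_ag.OnePowerSuffices

open Pool.Agent.H914 Pool.Agent.H914.VarClass Pool.Agent.H914.VarClass.Obj
  Pool.Agent.H914.WeilCohomology Pool.Agent.W534 Pool.Agent.Y133.Half Pool.Agent.Q56.FD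

/-- **One power suffices.** -/
theorem result {k : Type u} [Field k] {𝒱 : VarClass k} {ops : CycleOps 𝒱}
    (W : WeilCohomology.{u, v} ops) [IsAlgClosed W.K] {p : ℕ} [Fact p.Prime] (Φ : FrobSystem W p)
    (b d : ℕ) (X : 𝒱.Obj) (hb : Module.finrank W.K (W.H X) ≤ b) (hd : X.dim ≤ d)
    (hP : ∀ i ≤ 2 * X.dim, ∃ P : Polynomial ℤ, IsFrobPoly p (p ^ Φ.e X) i P ∧
      P.map (algebraMap ℤ W.K) = charpolyOn (W.map (Φ.Fr X)).toLinearMap (W.gr X i)) :
    ((∀ j, SemisimpleTateIn Φ (pw X (powBound b d - 1)) j) →
      ∀ n j, SemisimpleTateIn Φ (pw X n) j) ∧
    (FrobSemisimple Φ X → (∀ j, TateIn Φ (pw X (powBound b d - 1)) j) →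
      ∀ n j, TateIn Φ (pw X n) j) :=
  one_power_suffices hb hd hP

end Pool.Agent.Results.MP_950c68_ag.OnePowerSuffices
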